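import Mathlib
import Pool.Agent.H.MP_b13100_lc.Main

namespace Pool.Agent.Results.MP_b13100_lc.Undec

/-- the relators of the presentation with generators 0, ..., n-1 and relator words R -/
def relators (n : ℕ) (R : List (List (ℕ × Bool))) : Set (FreeGroup (Fin n)) :=
  {w | ∃ l : List (Fin n × Bool), l.map (fun x => (x.1.val, x.2)) ∈ R ∧ w = FreeGroup.mk l}

def Integrable (G : Type) [Group G] : Prop :=
  ∃ (H : Type) (_ : Group H), Nonempty (commutator H ≃* G)

theorem result : ¬ ∃ f : ℕ × List (List (ℕ × Bool)) → Bool, Computable f ∧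
    ∀ (n : ℕ) (R : List (List (ℕ × Bool))), (∀ r ∈ R, ∀ x ∈ r, x.1 < n) →
      (f (n, R) = true ↔ Integrable (PresentedGroup (relators n R))) := by
  rintro ⟨f, hf, h⟩
  obtain ⟨N, L, S, hL, hS, hv, hi⟩ := Pool.Agent.H.MP_b13100_lc.main
  refine hS (ComputablePred.computable_iff.2 ⟨fun n => f (N, L n),
    hf.comp ((Computable.const N).pair hL.to_comp), funext fun n => propext ?_⟩)
  exact (hi n).trans (h N (L n) (hv n)).symm

end Pool.Agent.Results.MP_b13100_lc.Undec
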